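import Pool.Agent.H57.UD.Data

set_option autoImplicit false

/-!
# `k`-planar unit distance graphs with more than `3.5 n` edges for small `k`

`KPlanarUnit k G` (file `Pool/Agent/H57/UD/Per.lean`): `G` has a drawing with distinct points of
the Euclidean plane for the vertices, every edge a straight segment of length `1` whose interior
contains no vertex, and every edge crosses at most `k` other edges.
-/

namespace Pool.Agent.Results.MP_28a956_co.DenserPeriodic

open Pool.Agent.H57.UD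

theorem result (n : ℕ) :
    (∃ G : SimpleGraph (Fin n), KPlanarUnit 5 G ∧
      11 / 3 * (n : ℝ) - 66 * Real.sqrt n ≤ (G.edgeSet.ncard : ℝ)) ∧
    (∃ G : SimpleGraph (Fin n), KPlanarUnit 6 G ∧
      4 * (n : ℝ) - 72 * Real.sqrt n ≤ (G.edgeSet.ncard : ℝ)) ∧
    (∃ G : SimpleGraph (Fin n), KPlanarUnit 9 G ∧
      9 / 2 * (n : ℝ) - 108 * Real.sqrt n ≤ (G.edgeSet.ncard : ℝ)) ∧
    (∃ G : SimpleGraph (Fin n), KPlanarUnit 14 G ∧
      24 / 5 * (n : ℝ) - 144 * Real.sqrt n ≤ (G.edgeSet.ncard : ℝ)) ∧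
    (∃ G : SimpleGraph (Fin n), KPlanarUnit 15 G ∧
      5 * (n : ℝ) - 150 * Real.sqrt n ≤ (G.edgeSet.ncard : ℝ)) ∧
    (∃ G : SimpleGraph (Fin n), KPlanarUnit 20 G ∧
      11 / 2 * (n : ℝ) - 198 * Real.sqrt n ≤ (G.edgeSet.ncard : ℝ)) := by
  refine ⟨?_, ?_, ?_, ?_, ?_, ?_⟩
  · obtain ⟨H, h1, h2⟩ := family good5 n
    refine ⟨H, h1, le_trans (le_of_eq ?_) h2⟩
    have : E5.length = 11 := rfl
    rw [this]; push_cast; ring
  · obtain ⟨H, h1, h2⟩ := family good6 n
    refine ⟨H, h1, le_trans (le_of_eq ?_) h2⟩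
    have : E6.length = 12 := rfl
    rw [this]; push_cast; ring
  · obtain ⟨H, h1, h2⟩ := family good9 n
    refine ⟨H, h1, le_trans (le_of_eq ?_) h2⟩
    have : E9.length = 18 := rfl
    rw [this]; push_cast; ring
  · obtain ⟨H, h1, h2⟩ := family good14 n
    refine ⟨H, h1, le_trans (le_of_eq ?_) h2⟩
    have : E14.length = 24 := rfl
    rw [this]; push_cast; ring
  · obtain ⟨H, h1, h2⟩ := family good15 n
    refine ⟨H, h1, le_trans (le_of_eq ?_) h2⟩
    have : E15.length = 25 := rfl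
    rw [this]; push_cast; ring
  · obtain ⟨H, h1, h2⟩ := family good20 n
    refine ⟨H, h1, le_trans (le_of_eq ?_) h2⟩
    have : E20.length = 33 := rfl
    rw [this]; push_cast; ring

end Pool.Agent.Results.MP_28a956_co.DenserPeriodic
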